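import Pool.Agent.U41.OD.Stm

/-! Package TR of project OD (helper41): the translated equation (helper312). -/

set_option autoImplicit false

namespace Pool.Agent.U41.OD

open Pool.Agent.H918R2.Quad Pool.Agent.H945R2.E Pool.Agent.W418 Pool.Agent.TH214.RM MvPolynomial

namespace TR

variable {O σ : Type} [CommRing O]

/-- translation -/
noncomputable def tr (a : σ → O) : MvPolynomial σ O →ₐ[O] MvPolynomial σ O :=
  aeval (fun l => X l + C (a l))

theorem const_tr (a : σ → O) (P : MvPolynomial σ O) : constantCoeff (tr a P) = eval a P := by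
  induction P using MvPolynomial.induction_on with
  | C c => simp [tr, algebraMap_eq]
  | add p q hp hq => rw [map_add, map_add, map_add, hp, hq]
  | mul_X p i hp =>
    rw [map_mul, map_mul, map_mul, hp]
    simp [tr]

theorem pderiv_tr (a : σ → O) (l : σ) (P : MvPolynomial σ O) :
    pderiv l (tr a P) = tr a (pderiv l P) := by
  classical
  induction P using MvPolynomial.induction_on with
  | C c => simp [tr, algebraMap_eq]
  | add p q hp hq => rw [map_add, map_add, map_add, map_add, hp, hq]
  | mul_X p i hp =>
    rw [map_mul, pderiv_mul, pderiv_mul, map_add, map_mul, map_mul, hp]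
    congr 2
    have h1 : tr a (X i) = X i + C (a i) := by simp [tr]
    rw [h1, map_add, pderiv_C, add_zero, pderiv_X]
    by_cases h : l = i
    · subst h
      simp
    · rw [Pi.single_eq_of_ne (Ne.symm h)]
      simp

theorem coeff_sgl (l : σ) (Q : MvPolynomial σ O) :
    coeff (Finsupp.single l 1) Q = constantCoeff (pderiv l Q) := by
  rw [constantCoeff_eq, coeff_pderiv]
  simp

theorem pderiv_hc (n : ℕ) (l : σ) (Q : MvPolynomial σ O) :
    pderiv l (homogeneousComponent (n + 1) Q) = homogeneousComponent n (pderiv l Q) := by
  classical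
  ext e
  rw [coeff_pderiv, coeff_homogeneousComponent, coeff_homogeneousComponent, coeff_pderiv]
  have h1 : (e + Finsupp.single l 1).degree = e.degree + 1 := by
    rw [map_add, Finsupp.degree_single]
  rw [h1]
  by_cases h : e.degree = n
  · simp [h]
  · simp [h]

theorem hc_one [Fintype σ] (R : MvPolynomial σ O) :
    homogeneousComponent 1 R = ∑ m, C (coeff (Finsupp.single m 1) R) * X m := by
  classical
  ext e
  rw [coeff_homogeneousComponent, coeff_sum]
  simp only [coeff_C_mul, coeff_X, mul_ite, mul_one, mul_zero]
  by_cases h : e.degree = 1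
  · rw [if_pos h]
    have h0 : e ≠ 0 := by
      rintro rfl
      simp at h
    obtain ⟨m, hm⟩ : ∃ m, e m ≠ 0 := by
      by_contra hcon
      push Not at hcon
      exact h0 (Finsupp.ext hcon)
    have he : e = Finsupp.single m 1 := by
      have h1 : e = Finsupp.single m 1 + (e - Finsupp.single m 1) := by
        ext j
        rw [Finsupp.add_apply, Finsupp.tsub_apply]
        by_cases hj : m = j
        · subst hj
          rw [Finsupp.single_eq_same]
          omega
        · rw [Finsupp.single_eq_of_ne (Ne.symm hj)]
          omega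
      have h2 : (e - Finsupp.single m 1).degree = 0 := by
        have h3 := congrArg Finsupp.degree h1
        rw [map_add, Finsupp.degree_single, h] at h3
        omega
      rw [Finsupp.degree_eq_zero_iff] at h2
      rw [h1, h2, add_zero]
    rw [Finset.sum_eq_single m]
    · rw [if_pos he.symm, he]
    · intro j _ hj
      rw [if_neg]
      intro h'
      rw [he] at h'
      exact hj (Finsupp.single_left_injective one_ne_zero h')
    · intro h'
      exact absurd (Finset.mem_univ _) h'
  · rw [if_neg h]
    symm
    apply Finset.sum_eq_zero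
    intro m _
    rw [if_neg]
    intro h'
    apply h
    rw [← h', Finsupp.degree_single]

theorem pderiv_comm (i j : σ) (g : MvPolynomial σ O) :
    pderiv i (pderiv j g) = pderiv j (pderiv i g) := by
  classical
  ext e
  rw [coeff_pderiv, coeff_pderiv, coeff_pderiv, coeff_pderiv]
  by_cases h : i = j
  · subst h
    rfl
  · have e1 : (e + Finsupp.single i 1 : σ →₀ ℕ) j = e j := by
      rw [Finsupp.add_apply, Finsupp.single_eq_of_ne (Ne.symm h), add_zero]
    have e2 : (e + Finsupp.single j 1 : σ →₀ ℕ) i = e i := by
      rw [Finsupp.add_apply, Finsupp.single_eq_of_ne h, add_zero]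
    rw [e1, e2, add_right_comm]
    ring

theorem pderiv_quad [Fintype σ] (a : σ → O) (P : MvPolynomial σ O) (l : σ) :
    pderiv l (homogeneousComponent 2 (tr a P)) = ∑ m, C (eval a (hess P l m)) * X m := by
  rw [pderiv_hc 1, pderiv_tr, hc_one]
  refine Finset.sum_congr rfl fun m _ => ?_
  rw [coeff_sgl, pderiv_tr, const_tr, pderiv_comm]
  rfl

end TR

open TR in
theorem TR_ok : S_TR := by
  intro O _ n a H
  have h1 : deh 0 (trans a H) = tr a (deh 0 H) := by
    unfold deh trans tr
    rw [← AlgHom.comp_apply, ← AlgHom.comp_apply]
    congr 1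
    apply MvPolynomial.algHom_ext
    intro i
    rw [AlgHom.comp_apply, AlgHom.comp_apply, aeval_X, aeval_X]
    by_cases h : i = 0
    · subst h
      simp [tau]
    · rw [dif_pos h]
      simp [tau, h, algebraMap_eq]
  refine ⟨h1, ?_, ?_, ?_⟩
  · rw [h1, const_tr]
  · intro l
    rw [h1, coeff_sgl, pderiv_tr, const_tr]
  · intro l
    rw [h1]
    exact pderiv_quad a _ l

end Pool.Agent.U41.OD
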